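import Mathlib

set_option autoImplicit false

/-!
# Growth rate of the least order of abelian groups embedding both mates of a latin bitrade

A chain of `n` copies of a piece with `19` triples, taken from the spiral bitrade of size `20` whose
mates embed in `ℤ/151`, gives a latin bitrade of size `19 n + 1`; both mates embed in the cyclic group
of order `151 ^ n` and neither embeds in an abelian group of smaller order. The growth rate is
`151 ^ (1 / 19) > 1.302`.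
-/

namespace Pool.Agent.Results.MP_afce15_co.GrowthRate

open Finset Filter

/-- A partial latin square: a finite set of triples (row, column, symbol) in which any two
coordinates determine the third. -/
def IsPLS (P : Finset (ℕ × ℕ × ℕ)) : Prop :=
  ∀ p ∈ P, ∀ q ∈ P, (p.1 = q.1 → p.2.1 = q.2.1 → p = q) ∧ (p.1 = q.1 → p.2.2 = q.2.2 → p = q) ∧
    (p.2.1 = q.2.1 → p.2.2 = q.2.2 → p = q)

/-- A latin bitrade `(W, B)`: two nonempty partial latin squares which fill the same cells, have the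
same symbols in each row and in each column, and have no triple in common. -/
structure IsBitrade (W B : Finset (ℕ × ℕ × ℕ)) : Prop where
  nonempty : W.Nonempty ∧ B.Nonempty
  pls : IsPLS W ∧ IsPLS B
  cells : ∀ r c, (∃ s, (r, c, s) ∈ W) ↔ ∃ s, (r, c, s) ∈ B
  rows : ∀ r s, (∃ c, (r, c, s) ∈ W) ↔ ∃ c, (r, c, s) ∈ B
  cols : ∀ c s, (∃ r, (r, c, s) ∈ W) ↔ ∃ r, (r, c, s) ∈ B
  disj : Disjoint W B

/-- `P` embeds in the abelian group `G`: there are maps `α, β, γ` of the rows, columns and symbols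
into `G`, injective on the rows, the columns and the symbols of `P`, with `α r + β c = γ s` for
every triple `(r, c, s)` of `P`. -/
def Embeds (P : Finset (ℕ × ℕ × ℕ)) (G : Type*) [AddCommGroup G] : Prop :=
  ∃ α β γ : ℕ → G, Set.InjOn α {r | ∃ c s, (r, c, s) ∈ P} ∧
    Set.InjOn β {c | ∃ r s, (r, c, s) ∈ P} ∧ Set.InjOn γ {s | ∃ r c, (r, c, s) ∈ P} ∧
    ∀ r c s, (r, c, s) ∈ P → α r + β c = γ s

/-- The orders of the finite abelian groups in which both `W` and `B` embed. The number `m(W, B)` of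
the problem is the least element of this set. -/
def Orders (W B : Finset (ℕ × ℕ × ℕ)) : Set ℕ :=
  {m | ∃ (G : Type) (_ : AddCommGroup G), Finite G ∧ Nat.card G = m ∧ Embeds W G ∧ Embeds B G}

/-- The first mate of the piece. Row `0` and column `0` are shared by all copies. -/
def WL : Finset (ℕ × ℕ × ℕ) :=
  {(0, 1, 0), (0, 2, 1), (1, 0, 0), (1, 1, 1), (1, 3, 2), (2, 0, 2), (2, 2, 7), (2, 4, 3), (3, 2, 3), (3, 3, 1), (3, 5, 4), (4, 3, 4), (4, 4, 2), (4, 6, 5), (5, 4, 5), (5, 5, 3), (5, 6, 6), (6, 5, 6), (6, 6, 4)}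

/-- The second mate of the piece. -/
def BL : Finset (ℕ × ℕ × ℕ) :=
  {(0, 1, 1), (0, 2, 7), (1, 0, 2), (1, 1, 0), (1, 3, 1), (2, 0, 7), (2, 2, 3), (2, 4, 2), (3, 2, 1), (3, 3, 4), (3, 5, 3), (4, 3, 2), (4, 4, 5), (4, 6, 4), (5, 4, 3), (5, 5, 6), (5, 6, 5), (6, 5, 4), (6, 6, 6)}

/-- index of row (or column) `a` of the `i`-th copy -/
def rc (i a : ℕ) : ℕ := if a = 0 then 0 else 6 * i + a

/-- the `i`-th copy of a triple -/
def emb (i : ℕ) (t : ℕ × ℕ × ℕ) : ℕ × ℕ × ℕ := (rc i t.1, rc i t.2.1, 7 * i + t.2.2)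

/-- The first mate. -/
def W (n : ℕ) : Finset (ℕ × ℕ × ℕ) :=
  insert (0, 0, 7 * n) ((range n).biUnion fun i => WL.image (emb i))

/-- The second mate. -/
def B (n : ℕ) : Finset (ℕ × ℕ × ℕ) :=
  insert (0, 0, 0) ((range n).biUnion fun i => BL.image (emb i))

/-- row values of the first mate -/
def aW : ℕ → ℕ
  | 0 => 0
  | 1 => 37
  | 2 => 77
  | 3 => 34
  | 4 => 46
  | 5 => 56
  | 6 => 45
  | _ => 0

/-- column values of the first mate -/
def bW : ℕ → ℕ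
  | 0 => 0
  | 1 => 37
  | 2 => 74
  | 3 => 40
  | 4 => 31
  | 5 => 52
  | 6 => 41
  | _ => 0

/-- symbol values of the first mate -/
def cW : ℕ → ℕ
  | 0 => 37
  | 1 => 74
  | 2 => 77
  | 3 => 108
  | 4 => 86
  | 5 => 87
  | 6 => 97
  | 7 => 151
  | _ => 0

/-- row values of the second mate -/
def aB : ℕ → ℕ
  | 0 => 0
  | 1 => 65
  | 2 => 37
  | 3 => 49
  | 4 => 44
  | 5 => 46
  | 6 => 45
  | _ => 0

/-- column values of the second mate -/
def bB : ℕ → ℕ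
  | 0 => 0
  | 1 => 86
  | 2 => 37
  | 3 => 21
  | 4 => 28
  | 5 => 25
  | 6 => 26
  | _ => 0

/-- symbol values of the second mate -/
def cB : ℕ → ℕ
  | 0 => 151
  | 1 => 86
  | 2 => 65
  | 3 => 74
  | 4 => 70
  | 5 => 72
  | 6 => 71
  | 7 => 37
  | _ => 0

theorem WL_dom : ∀ t ∈ WL, t.1 ≤ 6 ∧ t.2.1 ≤ 6 ∧ t.2.2 ≤ 7 ∧ ¬ (t.1 = 0 ∧ t.2.1 = 0) ∧
    ¬ (t.1 = 0 ∧ t.2.2 = 7) ∧ ¬ (t.2.1 = 0 ∧ t.2.2 = 7) := by decide +kernel

theorem BL_dom : ∀ t ∈ BL, t.1 ≤ 6 ∧ t.2.1 ≤ 6 ∧ t.2.2 ≤ 7 ∧ ¬ (t.1 = 0 ∧ t.2.1 = 0) ∧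
    ¬ (t.1 = 0 ∧ t.2.2 = 0) ∧ ¬ (t.2.1 = 0 ∧ t.2.2 = 0) := by decide +kernel

theorem WL_pls : ∀ p ∈ WL, ∀ q ∈ WL, (p.1 = q.1 → p.2.1 = q.2.1 → p = q) ∧
    (p.1 = q.1 → p.2.2 = q.2.2 → p = q) ∧ (p.2.1 = q.2.1 → p.2.2 = q.2.2 → p = q) := by
  decide +kernel

theorem BL_pls : ∀ p ∈ BL, ∀ q ∈ BL, (p.1 = q.1 → p.2.1 = q.2.1 → p = q) ∧
    (p.1 = q.1 → p.2.2 = q.2.2 → p = q) ∧ (p.2.1 = q.2.1 → p.2.2 = q.2.2 → p = q) := by
  decide +kernel

theorem WL_cell : ∀ t ∈ WL, ∃ u ∈ BL, u.1 = t.1 ∧ u.2.1 = t.2.1 := by decide +kernel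

theorem BL_cell : ∀ t ∈ BL, ∃ u ∈ WL, u.1 = t.1 ∧ u.2.1 = t.2.1 := by decide +kernel

theorem WL_row : ∀ t ∈ WL, ¬ (t.1 = 0 ∧ t.2.2 = 0) → ∃ u ∈ BL, u.1 = t.1 ∧ u.2.2 = t.2.2 := by
  decide +kernel

theorem BL_row : ∀ t ∈ BL, ¬ (t.1 = 0 ∧ t.2.2 = 7) → ∃ u ∈ WL, u.1 = t.1 ∧ u.2.2 = t.2.2 := by
  decide +kernel

theorem WL_col : ∀ t ∈ WL, ¬ (t.2.1 = 0 ∧ t.2.2 = 0) → ∃ u ∈ BL, u.2.1 = t.2.1 ∧ u.2.2 = t.2.2 := by
  decide +kernel

theorem BL_col : ∀ t ∈ BL, ¬ (t.2.1 = 0 ∧ t.2.2 = 7) → ∃ u ∈ WL, u.2.1 = t.2.1 ∧ u.2.2 = t.2.2 := by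
  decide +kernel

theorem WL_disj : ∀ t ∈ WL, t ∉ BL := by decide +kernel

theorem WL_start : ∃ u ∈ WL, u.1 = 0 ∧ u.2.2 = 0 := by decide +kernel
theorem WL_start' : ∃ u ∈ WL, u.2.1 = 0 ∧ u.2.2 = 0 := by decide +kernel
theorem BL_end : ∃ u ∈ BL, u.1 = 0 ∧ u.2.2 = 7 := by decide +kernel
theorem BL_end' : ∃ u ∈ BL, u.2.1 = 0 ∧ u.2.2 = 7 := by decide +kernel

theorem rc_cases (i a : ℕ) (h : a ≤ 6) :
    (a = 0 ∧ rc i a = 0) ∨ (1 ≤ a ∧ rc i a = 6 * i + a) := by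
  unfold rc
  split_ifs with h0
  · left; exact ⟨h0, rfl⟩
  · right; exact ⟨by omega, rfl⟩

theorem rc_inj {i j a b : ℕ} (ha : a ≤ 6) (hb : b ≤ 6) (h : rc i a = rc j b) :
    a = b ∧ (a = 0 ∨ i = j) := by
  rcases rc_cases i a ha with h1 | h1 <;> rcases rc_cases j b hb with h2 | h2 <;> omega

theorem mem_W {n : ℕ} {x : ℕ × ℕ × ℕ} : x ∈ W n ↔ x = (0, 0, 7 * n) ∨
    ∃ i < n, ∃ t ∈ WL, emb i t = x := by
  simp only [W, mem_insert, mem_biUnion, mem_image, mem_range]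

theorem mem_B {n : ℕ} {x : ℕ × ℕ × ℕ} : x ∈ B n ↔ x = (0, 0, 0) ∨
    ∃ i < n, ∃ t ∈ BL, emb i t = x := by
  simp only [B, mem_insert, mem_biUnion, mem_image, mem_range]

theorem emb_inj {i j : ℕ} {t u : ℕ × ℕ × ℕ} (ht : t.1 ≤ 6 ∧ t.2.1 ≤ 6 ∧ ¬ (t.1 = 0 ∧ t.2.1 = 0))
    (hu : u.1 ≤ 6 ∧ u.2.1 ≤ 6) (h : emb i t = emb j u) : i = j ∧ t = u := by
  obtain ⟨a, b, c⟩ := t
  obtain ⟨a', b', c'⟩ := u
  simp only [emb, Prod.mk.injEq] at h ht hu ⊢
  obtain ⟨h1, h2, h3⟩ := h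
  have e1 := rc_inj ht.1 hu.1 h1
  have e2 := rc_inj ht.2.1 hu.2 h2
  omega

theorem card_aux {L : Finset (ℕ × ℕ × ℕ)} (hL : ∀ t ∈ L, t.1 ≤ 6 ∧ t.2.1 ≤ 6 ∧
    ¬ (t.1 = 0 ∧ t.2.1 = 0)) (n s : ℕ) :
    (insert (0, 0, s) ((range n).biUnion fun i => L.image (emb i))).card = L.card * n + 1 := by
  rw [card_insert_of_notMem, card_biUnion]
  · have : ∀ i ∈ range n, (L.image (emb i)).card = L.card := by
      intro i _
      refine card_image_of_injOn ?_
      intro t ht u hu h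
      exact (emb_inj (hL t ht) ⟨(hL u hu).1, (hL u hu).2.1⟩ h).2
    rw [sum_congr rfl this]
    simp [mul_comm]
  · intro i _ j _ hij
    rw [Function.onFun, disjoint_left]
    intro x hx hx'
    simp only [mem_image] at hx hx'
    obtain ⟨t, ht, rfl⟩ := hx
    obtain ⟨u, hu, h⟩ := hx'
    exact hij (emb_inj (hL u hu) ⟨(hL t ht).1, (hL t ht).2.1⟩ h).1.symm
  · simp only [mem_biUnion, mem_image, mem_range, not_exists, not_and]
    rintro i _ ⟨a, b, c⟩ ht h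
    have h0 := hL _ ht
    simp only [emb, Prod.mk.injEq] at h h0
    rcases rc_cases i a h0.1 with h1 | h1 <;> rcases rc_cases i b h0.2.1 with h2 | h2 <;> omega

theorem card_W (n : ℕ) : (W n).card = 19 * n + 1 := by
  have h : WL.card = 19 := by decide +kernel
  rw [W, card_aux (fun t ht => ⟨(WL_dom t ht).1, (WL_dom t ht).2.1, (WL_dom t ht).2.2.2.1⟩), h]

theorem pls_aux {L : Finset (ℕ × ℕ × ℕ)} {n s : ℕ}
    (hL : ∀ t ∈ L, t.1 ≤ 6 ∧ t.2.1 ≤ 6 ∧ t.2.2 ≤ 7 ∧ ¬ (t.1 = 0 ∧ t.2.1 = 0))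
    (hp : ∀ p ∈ L, ∀ q ∈ L, (p.1 = q.1 → p.2.1 = q.2.1 → p = q) ∧
      (p.1 = q.1 → p.2.2 = q.2.2 → p = q) ∧ (p.2.1 = q.2.1 → p.2.2 = q.2.2 → p = q))
    (h1 : ∀ i < n, ∀ t ∈ L, (t.1 = 0 ∨ t.2.1 = 0) → 7 * i + t.2.2 ≠ s)
    (h2 : (∀ t ∈ L, ¬ (t.1 = 0 ∧ t.2.2 = 7) ∧ ¬ (t.2.1 = 0 ∧ t.2.2 = 7)) ∨
      (∀ t ∈ L, ¬ (t.1 = 0 ∧ t.2.2 = 0) ∧ ¬ (t.2.1 = 0 ∧ t.2.2 = 0))) :
    IsPLS (insert (0, 0, s) ((range n).biUnion fun i => L.image (emb i))) := by
  intro p hp' q hq'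
  simp only [mem_insert, mem_biUnion, mem_image, mem_range] at hp' hq'
  rcases hp' with rfl | ⟨i, hi, ⟨a, b, c⟩, ht, rfl⟩ <;> rcases hq' with rfl | ⟨j, hj, ⟨a', b', c'⟩, hu, rfl⟩
  · simp
  · have h0 := hL _ hu
    have h3 := h1 j hj _ hu
    simp only [emb, Prod.mk.injEq] at h0 h3 ⊢
    rcases rc_cases j a' h0.1 with h4 | h4 <;> rcases rc_cases j b' h0.2.1 with h5 | h5 <;> omega
  · have h0 := hL _ ht
    have h3 := h1 i hi _ ht
    simp only [emb, Prod.mk.injEq] at h0 h3 ⊢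
    rcases rc_cases i a h0.1 with h4 | h4 <;> rcases rc_cases i b h0.2.1 with h5 | h5 <;> omega
  · have h0 := hL _ ht
    have h0' := hL _ hu
    have hpq := hp _ ht _ hu
    have h3 : (¬ (a = 0 ∧ c = 7) ∧ ¬ (b = 0 ∧ c = 7) ∧ ¬ (a' = 0 ∧ c' = 7) ∧ ¬ (b' = 0 ∧ c' = 7)) ∨
        (¬ (a = 0 ∧ c = 0) ∧ ¬ (b = 0 ∧ c = 0) ∧ ¬ (a' = 0 ∧ c' = 0) ∧ ¬ (b' = 0 ∧ c' = 0)) := by
      rcases h2 with h2 | h2
      · left
        have e1 := h2 _ ht
        have e2 := h2 _ hu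
        simp only at e1 e2
        exact ⟨e1.1, e1.2, e2.1, e2.2⟩
      · right
        have e1 := h2 _ ht
        have e2 := h2 _ hu
        simp only at e1 e2
        exact ⟨e1.1, e1.2, e2.1, e2.2⟩
    simp only [emb, Prod.mk.injEq] at h0 h0' hpq ⊢
    refine ⟨fun e1 e2 => ?_, fun e1 e2 => ?_, fun e1 e2 => ?_⟩
    · have f1 := rc_inj h0.1 h0'.1 e1
      have f2 := rc_inj h0.2.1 h0'.2.1 e2
      have f3 : i = j := by omega
      have f4 := hpq.1 f1.1 f2.1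
      subst f3
      exact ⟨e1, e2, by omega⟩
    · have f1 := rc_inj h0.1 h0'.1 e1
      have f3 : i = j ∧ c = c' := by omega
      have f4 := hpq.2.1 f1.1 f3.2
      obtain ⟨rfl, -⟩ := f3
      obtain ⟨rfl, rfl, rfl⟩ := f4
      exact ⟨rfl, rfl, rfl⟩
    · have f1 := rc_inj h0.2.1 h0'.2.1 e1
      have f3 : i = j ∧ c = c' := by omega
      have f4 := hpq.2.2 f1.1 f3.2
      obtain ⟨rfl, -⟩ := f3
      obtain ⟨rfl, rfl, rfl⟩ := f4
      exact ⟨rfl, rfl, rfl⟩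

theorem bitrade (n : ℕ) (hn : 1 ≤ n) : IsBitrade (W n) (B n) where
  nonempty := ⟨⟨_, mem_insert_self _ _⟩, ⟨_, mem_insert_self _ _⟩⟩
  pls := by
    constructor
    · refine pls_aux (fun t ht => ⟨(WL_dom t ht).1, (WL_dom t ht).2.1, (WL_dom t ht).2.2.1,
        (WL_dom t ht).2.2.2.1⟩) WL_pls ?_ (Or.inl fun t ht => (WL_dom t ht).2.2.2.2)
      intro i hi t ht h
      have := WL_dom t ht
      omega
    · refine pls_aux (fun t ht => ⟨(BL_dom t ht).1, (BL_dom t ht).2.1, (BL_dom t ht).2.2.1,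
        (BL_dom t ht).2.2.2.1⟩) BL_pls ?_ (Or.inr fun t ht => (BL_dom t ht).2.2.2.2)
      intro i hi t ht h
      have := BL_dom t ht
      omega
  cells := by
    intro r c
    simp only [mem_W, mem_B]
    constructor
    · rintro ⟨s, h | ⟨i, hi, t, ht, h⟩⟩
      · simp only [Prod.mk.injEq] at h
        exact ⟨0, Or.inl (by simp [h.1, h.2.1])⟩
      · obtain ⟨u, hu, h1, h2⟩ := WL_cell t ht
        simp only [emb, Prod.mk.injEq] at h
        exact ⟨7 * i + u.2.2, Or.inr ⟨i, hi, u, hu, by simp only [emb, h1, h2, h.1, h.2.1]⟩⟩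
    · rintro ⟨s, h | ⟨i, hi, t, ht, h⟩⟩
      · simp only [Prod.mk.injEq] at h
        exact ⟨7 * n, Or.inl (by simp [h.1, h.2.1])⟩
      · obtain ⟨u, hu, h1, h2⟩ := BL_cell t ht
        simp only [emb, Prod.mk.injEq] at h
        exact ⟨7 * i + u.2.2, Or.inr ⟨i, hi, u, hu, by simp only [emb, h1, h2, h.1, h.2.1]⟩⟩
  rows := by
    intro r s
    simp only [mem_W, mem_B]
    constructor
    · rintro ⟨c, h | ⟨i, hi, t, ht, h⟩⟩
      · simp only [Prod.mk.injEq] at h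
        obtain ⟨u, hu, h1, h2⟩ := BL_end
        refine ⟨rc (n - 1) u.2.1, Or.inr ⟨n - 1, by omega, u, hu, ?_⟩⟩
        simp only [emb, Prod.mk.injEq, h1, h2, rc, if_true]
        exact ⟨h.1.symm, trivial, by omega⟩
      · simp only [emb, Prod.mk.injEq] at h
        by_cases h0 : t.1 = 0 ∧ t.2.2 = 0
        · have hr : r = 0 := by rw [← h.1, h0.1]; simp [rc]
          have hs : s = 7 * i := by omega
          rcases Nat.eq_zero_or_pos i with hi0 | hi0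
          · exact ⟨0, Or.inl (by simp only [Prod.mk.injEq, true_and]; omega)⟩
          · obtain ⟨u, hu, h1, h2⟩ := BL_end
            refine ⟨rc (i - 1) u.2.1, Or.inr ⟨i - 1, by omega, u, hu, ?_⟩⟩
            simp only [emb, Prod.mk.injEq, h1, h2, rc, if_true]
            exact ⟨hr.symm, trivial, by omega⟩
        · obtain ⟨u, hu, h1, h2⟩ := WL_row t ht h0
          exact ⟨rc i u.2.1, Or.inr ⟨i, hi, u, hu, by simp only [emb, h1, h2, h.1, h.2.2]⟩⟩
    · rintro ⟨c, h | ⟨i, hi, t, ht, h⟩⟩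
      · simp only [Prod.mk.injEq] at h
        obtain ⟨u, hu, h1, h2⟩ := WL_start
        refine ⟨rc 0 u.2.1, Or.inr ⟨0, by omega, u, hu, ?_⟩⟩
        simp only [emb, Prod.mk.injEq, h1, h2, rc, if_true]
        exact ⟨h.1.symm, trivial, by omega⟩
      · simp only [emb, Prod.mk.injEq] at h
        by_cases h0 : t.1 = 0 ∧ t.2.2 = 7
        · have hr : r = 0 := by rw [← h.1, h0.1]; simp [rc]
          have hs : s = 7 * (i + 1) := by omega
          rcases Nat.lt_or_ge (i + 1) n with hi0 | hi0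
          · obtain ⟨u, hu, h1, h2⟩ := WL_start
            refine ⟨rc (i + 1) u.2.1, Or.inr ⟨i + 1, by omega, u, hu, ?_⟩⟩
            simp only [emb, Prod.mk.injEq, h1, h2, rc, if_true]
            exact ⟨hr.symm, trivial, by omega⟩
          · exact ⟨0, Or.inl (by simp only [Prod.mk.injEq, true_and]; omega)⟩
        · obtain ⟨u, hu, h1, h2⟩ := BL_row t ht h0
          exact ⟨rc i u.2.1, Or.inr ⟨i, hi, u, hu, by simp only [emb, h1, h2, h.1, h.2.2]⟩⟩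
  cols := by
    intro c s
    simp only [mem_W, mem_B]
    constructor
    · rintro ⟨r, h | ⟨i, hi, t, ht, h⟩⟩
      · simp only [Prod.mk.injEq] at h
        obtain ⟨u, hu, h1, h2⟩ := BL_end'
        refine ⟨rc (n - 1) u.1, Or.inr ⟨n - 1, by omega, u, hu, ?_⟩⟩
        simp only [emb, Prod.mk.injEq, h1, h2, rc, if_true]
        exact ⟨trivial, h.2.1.symm, by omega⟩
      · simp only [emb, Prod.mk.injEq] at h
        by_cases h0 : t.2.1 = 0 ∧ t.2.2 = 0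
        · have hr : c = 0 := by rw [← h.2.1, h0.1]; simp [rc]
          have hs : s = 7 * i := by omega
          rcases Nat.eq_zero_or_pos i with hi0 | hi0
          · exact ⟨0, Or.inl (by simp only [Prod.mk.injEq, true_and]; omega)⟩
          · obtain ⟨u, hu, h1, h2⟩ := BL_end'
            refine ⟨rc (i - 1) u.1, Or.inr ⟨i - 1, by omega, u, hu, ?_⟩⟩
            simp only [emb, Prod.mk.injEq, h1, h2, rc, if_true]
            exact ⟨trivial, hr.symm, by omega⟩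
        · obtain ⟨u, hu, h1, h2⟩ := WL_col t ht h0
          exact ⟨rc i u.1, Or.inr ⟨i, hi, u, hu, by simp only [emb, h1, h2, h.2.1, h.2.2]⟩⟩
    · rintro ⟨r, h | ⟨i, hi, t, ht, h⟩⟩
      · simp only [Prod.mk.injEq] at h
        obtain ⟨u, hu, h1, h2⟩ := WL_start'
        refine ⟨rc 0 u.1, Or.inr ⟨0, by omega, u, hu, ?_⟩⟩
        simp only [emb, Prod.mk.injEq, h1, h2, rc, if_true]
        exact ⟨trivial, h.2.1.symm, by omega⟩
      · simp only [emb, Prod.mk.injEq] at h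
        by_cases h0 : t.2.1 = 0 ∧ t.2.2 = 7
        · have hr : c = 0 := by rw [← h.2.1, h0.1]; simp [rc]
          have hs : s = 7 * (i + 1) := by omega
          rcases Nat.lt_or_ge (i + 1) n with hi0 | hi0
          · obtain ⟨u, hu, h1, h2⟩ := WL_start'
            refine ⟨rc (i + 1) u.1, Or.inr ⟨i + 1, by omega, u, hu, ?_⟩⟩
            simp only [emb, Prod.mk.injEq, h1, h2, rc, if_true]
            exact ⟨trivial, hr.symm, by omega⟩
          · exact ⟨0, Or.inl (by simp only [Prod.mk.injEq, true_and]; omega)⟩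
        · obtain ⟨u, hu, h1, h2⟩ := BL_col t ht h0
          exact ⟨rc i u.1, Or.inr ⟨i, hi, u, hu, by simp only [emb, h1, h2, h.2.1, h.2.2]⟩⟩
  disj := by
    rw [disjoint_left]
    rintro x h h'
    rw [mem_W] at h
    rw [mem_B] at h'
    rcases h with rfl | ⟨i, hi, t, ht, rfl⟩ <;> rcases h' with h' | ⟨j, hj, u, hu, h'⟩
    · simp only [Prod.mk.injEq] at h'; omega
    · have h0 := BL_dom u hu
      simp only [emb, Prod.mk.injEq] at h'
      rcases rc_cases j u.1 h0.1 with h4 | h4 <;> rcases rc_cases j u.2.1 h0.2.1 with h5 | h5 <;> omega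
    · have h0 := WL_dom t ht
      simp only [emb, Prod.mk.injEq] at h'
      rcases rc_cases i t.1 h0.1 with h4 | h4 <;> rcases rc_cases i t.2.1 h0.2.1 with h5 | h5 <;> omega
    · have h0 := WL_dom t ht
      have h1 := BL_dom u hu
      have := emb_inj ⟨h1.1, h1.2.1, h1.2.2.2.1⟩ ⟨h0.1, h0.2.1⟩ h'
      rw [this.2] at hu
      exact WL_disj t ht hu

theorem pow_zero' (n : ℕ) : (151 : ZMod (151 ^ n)) ^ n = 0 := by
  have : ((151 ^ n : ℕ) : ZMod (151 ^ n)) = 0 := ZMod.natCast_self _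
  push_cast at this
  exact this

/-- separation of the values -/
theorem sep {n i j e f a b : ℕ} (hi : i < n) (hj : j < n) (ha : ¬ 151 ∣ a) (hb : ¬ 151 ∣ b)
    (h : (a : ZMod (151 ^ n)) * 151 ^ i * 37 ^ e = b * 151 ^ j * 37 ^ f) : i = j := by
  have hp : Nat.Prime 151 := by norm_num
  by_contra hne
  wlog hlt : i < j generalizing i j e f a b with H
  · exact H hj hi hb ha h.symm (Ne.symm hne) (by omega)
  have h1 : (((a * 151 ^ i * 37 ^ e : ℕ) : ZMod (151 ^ n))) = ((b * 151 ^ j * 37 ^ f : ℕ) :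
      ZMod (151 ^ n)) := by push_cast; exact h
  rw [ZMod.natCast_eq_natCast_iff] at h1
  have h2 : a * 151 ^ i * 37 ^ e ≡ b * 151 ^ j * 37 ^ f [MOD 151 ^ (i + 1)] :=
    h1.of_dvd (pow_dvd_pow _ (by omega))
  have h3 : 151 ^ (i + 1) ∣ b * 151 ^ j * 37 ^ f :=
    Dvd.dvd.mul_right (Dvd.dvd.mul_left (pow_dvd_pow _ (by omega)) _) _
  have h4 : 151 ^ (i + 1) ∣ a * 151 ^ i * 37 ^ e := (Nat.ModEq.dvd_iff h2 (dvd_refl _)).2 h3
  have h5 : 151 ^ (i + 1) = 151 ^ i * 151 := pow_succ _ _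
  rw [h5, show a * 151 ^ i * 37 ^ e = 151 ^ i * (a * 37 ^ e) by ring] at h4
  have h6 : 151 ∣ a * 37 ^ e := Nat.dvd_of_mul_dvd_mul_left (by positivity) h4
  rcases hp.dvd_mul.1 h6 with h7 | h7
  · exact ha h7
  · have := hp.dvd_of_dvd_pow h7
    omega

theorem sep' {n i e a b : ℕ} (hi : i < n)
    (h : (a : ZMod (151 ^ n)) * 151 ^ i * 37 ^ e = b * 151 ^ i * 37 ^ e) : a ≡ b [MOD 151] := by
  have hp : Nat.Prime 151 := by norm_num
  have h1 : (((a * 151 ^ i * 37 ^ e : ℕ) : ZMod (151 ^ n))) = ((b * 151 ^ i * 37 ^ e : ℕ) :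
      ZMod (151 ^ n)) := by push_cast; exact h
  rw [ZMod.natCast_eq_natCast_iff] at h1
  have h2 : a * 151 ^ i * 37 ^ e ≡ b * 151 ^ i * 37 ^ e [MOD 151 ^ (i + 1)] :=
    h1.of_dvd (pow_dvd_pow _ (by omega))
  have h5 : 151 ^ (i + 1) = 151 ^ i * 151 := pow_succ _ _
  rw [h5, show a * 151 ^ i * 37 ^ e = 151 ^ i * (a * 37 ^ e) by ring,
    show b * 151 ^ i * 37 ^ e = 151 ^ i * (b * 37 ^ e) by ring] at h2
  have h6 : a * 37 ^ e ≡ b * 37 ^ e [MOD 151] := Nat.ModEq.mul_left_cancel' (by positivity) h2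
  exact Nat.ModEq.cancel_right_of_coprime (Nat.Coprime.pow_right e (by norm_num)) h6

theorem sep0 {n i e a : ℕ} (hi : i < n) (ha : ¬ 151 ∣ a) :
    (a : ZMod (151 ^ n)) * 151 ^ i * 37 ^ e ≠ 0 := by
  intro h
  have hp : Nat.Prime 151 := by norm_num
  have h1 : (((a * 151 ^ i * 37 ^ e : ℕ) : ZMod (151 ^ n))) = 0 := by push_cast; exact h
  rw [ZMod.natCast_eq_zero_iff] at h1
  have h4 : 151 ^ (i + 1) ∣ a * 151 ^ i * 37 ^ e := (pow_dvd_pow _ (by omega)).trans h1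
  have h5 : 151 ^ (i + 1) = 151 ^ i * 151 := pow_succ _ _
  rw [h5, show a * 151 ^ i * 37 ^ e = 151 ^ i * (a * 37 ^ e) by ring] at h4
  have h6 : 151 ∣ a * 37 ^ e := Nat.dvd_of_mul_dvd_mul_left (by positivity) h4
  rcases hp.dvd_mul.1 h6 with h7 | h7
  · exact ha h7
  · have := hp.dvd_of_dvd_pow h7
    omega

/-- the map sending `0` to `0` and `m i + a` (`1 ≤ a ≤ m`) to `v a * 151 ^ (p i) * 37 ^ (q i)` -/
theorem inj_aux {n m : ℕ} (hm : 0 < m) (v : ℕ → ℕ) (p q : ℕ → ℕ) (hp : ∀ i < n, p i < n)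
    (hpinj : ∀ i < n, ∀ j < n, p i = p j → i = j)
    (hv : ∀ a, 1 ≤ a → a ≤ m → ¬ 151 ∣ v a)
    (hv' : ∀ a, 1 ≤ a → a ≤ m → ∀ b, 1 ≤ b → b ≤ m → v a ≡ v b [MOD 151] → a = b)
    (F : ℕ → ZMod (151 ^ n)) (h0 : F 0 = 0)
    (hF : ∀ i < n, ∀ a, 1 ≤ a → a ≤ m → F (m * i + a) = (v a : ZMod (151 ^ n)) * 151 ^ p i * 37 ^ q i) :
    Set.InjOn F {r | r ≤ m * n} := by
  have hrep : ∀ r, r ≤ m * n → r = 0 ∨ ∃ i < n, ∃ a, 1 ≤ a ∧ a ≤ m ∧ r = m * i + a := by
    intro r hr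
    rcases Nat.eq_zero_or_pos r with h | h
    · left; exact h
    · right
      refine ⟨(r - 1) / m, ?_, (r - 1) % m + 1, by omega, ?_, ?_⟩
      · rw [Nat.div_lt_iff_lt_mul hm, mul_comm]; omega
      · have := Nat.mod_lt (r - 1) hm; omega
      · have := Nat.div_add_mod (r - 1) m; omega
  intro r hr s hs h
  simp only [Set.mem_ofPred_eq] at hr hs
  rcases hrep r hr with rfl | ⟨i, hi, a, ha1, ha2, rfl⟩ <;>
    rcases hrep s hs with rfl | ⟨j, hj, b, hb1, hb2, rfl⟩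
  · rfl
  · rw [h0, hF j hj b hb1 hb2] at h
    exact absurd h.symm (sep0 (hp j hj) (hv b hb1 hb2))
  · rw [h0, hF i hi a ha1 ha2] at h
    exact absurd h (sep0 (hp i hi) (hv a ha1 ha2))
  · rw [hF i hi a ha1 ha2, hF j hj b hb1 hb2] at h
    have e1 := sep (hp i hi) (hp j hj) (hv a ha1 ha2) (hv b hb1 hb2) h
    have e2 := hpinj i hi j hj e1
    subst e2
    have e3 := hv' a ha1 ha2 b hb1 hb2 (sep' (hp i hi) h)
    rw [e3]

theorem aW_val : ∀ t ∈ WL, aW t.1 + bW t.2.1 = cW t.2.2 := by decide +kernel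
theorem aB_val : ∀ t ∈ BL, aB t.1 + bB t.2.1 = cB t.2.2 := by decide +kernel

theorem nd (v : ℕ → ℕ) (m : ℕ) (h : ∀ a ∈ Finset.Icc 1 m, v a % 151 ≠ 0) :
    ∀ a, 1 ≤ a → a ≤ m → ¬ 151 ∣ v a := by
  intro a h1 h2 h3
  exact h a (Finset.mem_Icc.2 ⟨h1, h2⟩) (Nat.mod_eq_zero_of_dvd h3)

theorem ndd (v : ℕ → ℕ) (m : ℕ) (h : ∀ a ∈ Finset.Icc 1 m, ∀ b ∈ Finset.Icc 1 m,
    v a % 151 = v b % 151 → a = b) :
    ∀ a, 1 ≤ a → a ≤ m → ∀ b, 1 ≤ b → b ≤ m → v a ≡ v b [MOD 151] → a = b :=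
  fun a h1 h2 b h3 h4 h5 => h a (Finset.mem_Icc.2 ⟨h1, h2⟩) b (Finset.mem_Icc.2 ⟨h3, h4⟩) h5


theorem WL_embeds (n : ℕ) : Embeds (W n) (ZMod (151 ^ n)) := by
  let F : (ℕ → ℕ) → ℕ → ZMod (151 ^ n) := fun v r => if r = 0 then 0 else
    (v ((r - 1) % 6 + 1) : ZMod (151 ^ n)) * 151 ^ ((r - 1) / 6) * 37 ^ (n - 1 - (r - 1) / 6)
  let S : ℕ → ZMod (151 ^ n) := fun s =>
    (cW (s % 7) : ZMod (151 ^ n)) * 151 ^ (s / 7) * 37 ^ (n - 1 - s / 7)
  have hF : ∀ v i a, 1 ≤ a → a ≤ 6 → F v (6 * i + a) =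
      (v a : ZMod (151 ^ n)) * 151 ^ i * 37 ^ (n - 1 - i) := by
    intro v i a h1 h2
    have e1 : (6 * i + a - 1) % 6 + 1 = a := by omega
    have e2 : (6 * i + a - 1) / 6 = i := by omega
    simp only [F]
    rw [if_neg (by omega), e1, e2]
  have hF0 : ∀ v, F v 0 = 0 := fun v => by simp [F]
  have hS : ∀ i < n, ∀ s ≤ 7, S (7 * i + s) = (cW s : ZMod (151 ^ n)) * 151 ^ i * 37 ^ (n - 1 - i) := by
    intro i hi s hs
    rcases Nat.lt_or_ge s 7 with h | h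
    · have e1 : (7 * i + s) % 7 = s := by omega
      have e2 : (7 * i + s) / 7 = i := by omega
      simp only [S, e1, e2]
    · obtain rfl : s = 7 := by omega
      have e1 : (7 * i + 7) % 7 = 0 := by omega
      have e2 : (7 * i + 7) / 7 = i + 1 := by omega
      simp only [S, e1, e2, cW]
      rcases Nat.lt_or_ge (i + 1) n with h1 | h1
      · obtain ⟨k, hk⟩ : ∃ k, n - 1 - i = k + 1 := ⟨n - 1 - i - 1, by omega⟩
        have hk' : n - 1 - (i + 1) = k := by omega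
        rw [hk, hk', pow_succ, pow_succ]
        push_cast
        ring
      · obtain rfl : n = i + 1 := by omega
        have h2 : (151 : ZMod (151 ^ (i + 1))) ^ i * 151 = 0 := by
          rw [← pow_succ]; exact pow_zero' _
        have h3 : i + 1 - 1 - i = 0 := by omega
        rw [pow_zero', h3]
        push_cast
        rw [mul_zero, zero_mul, pow_zero, mul_one, mul_comm, h2]
  have hSn : S (7 * n) = 0 := by
    have e1 : (7 * n) % 7 = 0 := by omega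
    have e2 : (7 * n) / 7 = n := by omega
    simp only [S, e1, e2, pow_zero', mul_zero, zero_mul]
  have hrow : ∀ v : ℕ → ℕ, (∀ a ∈ Finset.Icc 1 6, v a % 151 ≠ 0) →
      (∀ a ∈ Finset.Icc 1 6, ∀ b ∈ Finset.Icc 1 6, v a % 151 = v b % 151 → a = b) →
      Set.InjOn (F v) {r | r ≤ 6 * n} := by
    intro v h1 h2
    exact inj_aux (by norm_num) v id (fun i => n - 1 - i) (fun i hi => hi) (fun i _ j _ h => h)
      (nd v 6 h1) (ndd v 6 h2) (F v) (hF0 v) (fun i _ a h3 h4 => hF v i a h3 h4)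
  have hsym : Set.InjOn (fun s => S (7 * n - s)) {s | s ≤ 7 * n} := by
    refine inj_aux (m := 7) (by norm_num) (fun a => cW (7 - a)) (fun i => n - 1 - i)
      (fun i => i) (fun i hi => by omega) (fun i hi j hj h => by omega)
      (nd _ 7 (by decide +kernel)) (ndd _ 7 (by decide +kernel)) _ (by simpa using hSn) ?_
    intro i hi a h1 h2
    have e1 : 7 * n - (7 * i + a) = 7 * (n - 1 - i) + (7 - a) := by omega
    have e2 : n - 1 - (n - 1 - i) = i := by omega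
    rw [e1, hS (n - 1 - i) (by omega) (7 - a) (by omega), e2]
  have hfv : ∀ v : ℕ → ℕ, v 0 = 0 → ∀ i a, a ≤ 6 → F v (rc i a) =
      (v a : ZMod (151 ^ n)) * 151 ^ i * 37 ^ (n - 1 - i) := by
    intro v hv i a ha
    rcases rc_cases i a ha with ⟨rfl, h⟩ | ⟨h1, h⟩
    · rw [h, hF0, hv]; simp
    · rw [h, hF v i a h1 ha]
  refine ⟨F aW, F bW, S, ?_, ?_, ?_, ?_⟩
  · refine (hrow aW (by decide +kernel) (by decide +kernel)).mono ?_
    rintro r ⟨c, s, h⟩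
    rw [mem_W] at h
    simp only [Set.mem_ofPred_eq]
    rcases h with h | ⟨i, hi, t, ht, h⟩
    · simp only [Prod.mk.injEq] at h; omega
    · simp only [emb, Prod.mk.injEq] at h
      have h0 := WL_dom t ht
      rcases rc_cases i t.1 h0.1 with h1 | h1 <;> omega
  · refine (hrow bW (by decide +kernel) (by decide +kernel)).mono ?_
    rintro c ⟨r, s, h⟩
    rw [mem_W] at h
    simp only [Set.mem_ofPred_eq]
    rcases h with h | ⟨i, hi, t, ht, h⟩
    · simp only [Prod.mk.injEq] at h; omega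
    · simp only [emb, Prod.mk.injEq] at h
      have h0 := WL_dom t ht
      rcases rc_cases i t.2.1 h0.2.1 with h1 | h1 <;> omega
  · have hle : ∀ s, (∃ r c, (r, c, s) ∈ W n) → s ≤ 7 * n := by
      rintro s ⟨r, c, h⟩
      rw [mem_W] at h
      rcases h with h | ⟨i, hi, t, ht, h⟩
      · simp only [Prod.mk.injEq] at h; omega
      · simp only [emb, Prod.mk.injEq] at h
        have h0 := WL_dom t ht
        omega
    intro s hs s' hs' h
    have h1 := hle s hs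
    have h2 := hle s' hs'
    have := @hsym (7 * n - s) (by simp) (7 * n - s') (by simp) (by
      simp only
      rw [Nat.sub_sub_self h1, Nat.sub_sub_self h2]
      exact h)
    omega
  · intro r c s h
    rw [mem_W] at h
    rcases h with h | ⟨i, hi, t, ht, h⟩
    · simp only [Prod.mk.injEq] at h
      rw [h.1, h.2.1, h.2.2, hF0, hF0, hSn, add_zero]
    · simp only [emb, Prod.mk.injEq] at h
      have h0 := WL_dom t ht
      rw [← h.1, ← h.2.1, ← h.2.2, hfv aW rfl i _ h0.1, hfv bW rfl i _ h0.2.1,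
        hS i hi _ h0.2.2.1, ← aW_val t ht]
      push_cast
      ring

theorem BL_embeds (n : ℕ) : Embeds (B n) (ZMod (151 ^ n)) := by
  let F : (ℕ → ℕ) → ℕ → ZMod (151 ^ n) := fun v r => if r = 0 then 0 else
    (v ((r - 1) % 6 + 1) : ZMod (151 ^ n)) * 151 ^ (n - 1 - (r - 1) / 6) * 37 ^ ((r - 1) / 6)
  let S : ℕ → ZMod (151 ^ n) := fun s => if s = 0 then 0 else
    (cB ((s - 1) % 7 + 1) : ZMod (151 ^ n)) * 151 ^ (n - 1 - (s - 1) / 7) * 37 ^ ((s - 1) / 7)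
  have hF : ∀ v i a, 1 ≤ a → a ≤ 6 → F v (6 * i + a) =
      (v a : ZMod (151 ^ n)) * 151 ^ (n - 1 - i) * 37 ^ i := by
    intro v i a h1 h2
    have e1 : (6 * i + a - 1) % 6 + 1 = a := by omega
    have e2 : (6 * i + a - 1) / 6 = i := by omega
    simp only [F]
    rw [if_neg (by omega), e1, e2]
  have hF0 : ∀ v, F v 0 = 0 := fun v => by simp [F]
  have hS1 : ∀ i s, 1 ≤ s → s ≤ 7 → S (7 * i + s) =
      (cB s : ZMod (151 ^ n)) * 151 ^ (n - 1 - i) * 37 ^ i := by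
    intro i s h1 h2
    have e1 : (7 * i + s - 1) % 7 + 1 = s := by omega
    have e2 : (7 * i + s - 1) / 7 = i := by omega
    simp only [S]
    rw [if_neg (by omega), e1, e2]
  have hS0 : S 0 = 0 := by simp [S]
  have hS : ∀ i < n, ∀ s ≤ 7, S (7 * i + s) = (cB s : ZMod (151 ^ n)) * 151 ^ (n - 1 - i) * 37 ^ i := by
    intro i hi s hs
    rcases Nat.eq_zero_or_pos s with rfl | h
    · rcases Nat.eq_zero_or_pos i with rfl | h1
      · obtain ⟨k, rfl⟩ : ∃ k, n = k + 1 := ⟨n - 1, by omega⟩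
        have h2 : (151 : ZMod (151 ^ (k + 1))) ^ k * 151 = 0 := by
          rw [← pow_succ]; exact pow_zero' _
        have h3 : k + 1 - 1 - 0 = k := by omega
        rw [h3, mul_zero, add_zero, hS0, pow_zero, mul_one]
        simp only [cB]
        push_cast
        rw [mul_comm, h2]
      · have e1 : 7 * i + 0 = 7 * (i - 1) + 7 := by omega
        rw [e1, hS1 (i - 1) 7 (by norm_num) le_rfl]
        obtain ⟨k, rfl⟩ : ∃ k, i = k + 1 := ⟨i - 1, by omega⟩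
        obtain ⟨l, hl⟩ : ∃ l, n - 1 - k = l + 1 := ⟨n - 1 - k - 1, by omega⟩
        have hl' : n - 1 - (k + 1) = l := by omega
        have hk : k + 1 - 1 = k := by omega
        rw [hk, hl, hl', pow_succ, pow_succ]
        simp only [cB]
        push_cast
        ring
    · exact hS1 i s h hs
  have hrow : ∀ v : ℕ → ℕ, (∀ a ∈ Finset.Icc 1 6, v a % 151 ≠ 0) →
      (∀ a ∈ Finset.Icc 1 6, ∀ b ∈ Finset.Icc 1 6, v a % 151 = v b % 151 → a = b) →
      Set.InjOn (F v) {r | r ≤ 6 * n} := by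
    intro v h1 h2
    exact inj_aux (by norm_num) v (fun i => n - 1 - i) (fun i => i) (fun i hi => by omega)
      (fun i hi j hj h => by omega) (nd v 6 h1) (ndd v 6 h2) (F v) (hF0 v)
      (fun i _ a h3 h4 => hF v i a h3 h4)
  have hsym : Set.InjOn S {s | s ≤ 7 * n} :=
    inj_aux (by norm_num) cB (fun i => n - 1 - i) (fun i => i) (fun i hi => by omega)
      (fun i hi j hj h => by omega) (nd _ 7 (by decide +kernel)) (ndd _ 7 (by decide +kernel)) S hS0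
      (fun i _ a h3 h4 => hS1 i a h3 h4)
  have hfv : ∀ v : ℕ → ℕ, v 0 = 0 → ∀ i a, a ≤ 6 → F v (rc i a) =
      (v a : ZMod (151 ^ n)) * 151 ^ (n - 1 - i) * 37 ^ i := by
    intro v hv i a ha
    rcases rc_cases i a ha with ⟨rfl, h⟩ | ⟨h1, h⟩
    · rw [h, hF0, hv]; simp
    · rw [h, hF v i a h1 ha]
  refine ⟨F aB, F bB, S, ?_, ?_, ?_, ?_⟩
  · refine (hrow aB (by decide +kernel) (by decide +kernel)).mono ?_
    rintro r ⟨c, s, h⟩
    rw [mem_B] at h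
    simp only [Set.mem_ofPred_eq]
    rcases h with h | ⟨i, hi, t, ht, h⟩
    · simp only [Prod.mk.injEq] at h; omega
    · simp only [emb, Prod.mk.injEq] at h
      have h0 := BL_dom t ht
      rcases rc_cases i t.1 h0.1 with h1 | h1 <;> omega
  · refine (hrow bB (by decide +kernel) (by decide +kernel)).mono ?_
    rintro c ⟨r, s, h⟩
    rw [mem_B] at h
    simp only [Set.mem_ofPred_eq]
    rcases h with h | ⟨i, hi, t, ht, h⟩
    · simp only [Prod.mk.injEq] at h; omega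
    · simp only [emb, Prod.mk.injEq] at h
      have h0 := BL_dom t ht
      rcases rc_cases i t.2.1 h0.2.1 with h1 | h1 <;> omega
  · refine hsym.mono ?_
    rintro s ⟨r, c, h⟩
    rw [mem_B] at h
    simp only [Set.mem_ofPred_eq]
    rcases h with h | ⟨i, hi, t, ht, h⟩
    · simp only [Prod.mk.injEq] at h; omega
    · simp only [emb, Prod.mk.injEq] at h
      have h0 := BL_dom t ht
      omega
  · intro r c s h
    rw [mem_B] at h
    rcases h with h | ⟨i, hi, t, ht, h⟩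
    · simp only [Prod.mk.injEq] at h
      rw [h.1, h.2.1, h.2.2, hF0, hF0, hS0, add_zero]
    · simp only [emb, Prod.mk.injEq] at h
      have h0 := BL_dom t ht
      rw [← h.1, ← h.2.1, ← h.2.2, hfv aB rfl i _ h0.1, hfv bB rfl i _ h0.2.1,
        hS i hi _ h0.2.2.1, ← aB_val t ht]
      push_cast
      ring

theorem order_bound {G : Type*} [AddCommGroup G] [Finite G] {n : ℕ} (hn : 1 ≤ n) (d : ℕ → G)
    (h : ∀ i < n, (37 : ℕ) • d (i + 1) = (151 : ℕ) • d i) (h0 : d n = 0) (h1 : d (n - 1) ≠ 0) :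
    151 ^ n ≤ Nat.card G := by
  have key : ∀ i, i ≤ n → (151 ^ i) • d 0 = (37 ^ i) • d i := by
    intro i
    induction i with
    | zero => intro _; simp
    | succ i ih =>
      intro hi
      rw [pow_succ, mul_nsmul, ih (by omega), ← mul_nsmul, mul_comm, mul_nsmul, ← h i (by omega),
        ← mul_nsmul, pow_succ, mul_comm]
  obtain ⟨m, rfl⟩ : ∃ m, n = m + 1 := ⟨n - 1, by omega⟩
  have hm : m + 1 - 1 = m := by omega
  rw [hm] at h1
  have e1 : 151 ^ (m + 1) • d 0 = 0 := by rw [key (m + 1) le_rfl, h0, nsmul_zero]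
  have e2 : ¬ 151 ^ m • d 0 = 0 := by
    rw [key m (by omega)]
    intro h2
    have h3 : (151 : ℕ) • d m = 0 := by rw [← h m (by omega), h0, nsmul_zero]
    have h4 : addOrderOf (d m) ∣ 151 := addOrderOf_dvd_of_nsmul_eq_zero h3
    have h5 : addOrderOf (d m) ∣ 37 ^ m := addOrderOf_dvd_of_nsmul_eq_zero h2
    have h6 : Nat.Coprime 151 (37 ^ m) := Nat.Coprime.pow_right m (by norm_num)
    have h7 : addOrderOf (d m) = 1 := Nat.eq_one_of_dvd_coprimes h6 h4 h5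
    exact h1 (AddMonoid.addOrderOf_eq_one_iff.1 h7)
  have : Fact (Nat.Prime 151) := ⟨by norm_num⟩
  have e3 := addOrderOf_eq_prime_pow (p := 151) e2 e1
  rw [← e3]
  exact addOrderOf_le_card

theorem lower_W {G : Type*} [AddCommGroup G] [Finite G] {n : ℕ} (hn : 1 ≤ n)
    (h : Embeds (W n) G) : 151 ^ n ≤ Nat.card G := by
  obtain ⟨α, β, γ, -, -, hγ, hsum⟩ := h
  have h0 := hsum 0 0 (7 * n) (mem_W.2 (Or.inl rfl))
  refine order_bound hn (fun i => γ (7 * i) - γ (7 * n)) ?_ (by simp) ?_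
  · intro i hi
    have key : (37 : ℤ) • (γ (7 * i + 7) - γ (7 * n)) = (151 : ℤ) • (γ (7 * i + 0) - γ (7 * n)) := by
      have e0 : α 0 + β (6 * i + 1) = γ (7 * i + 0) :=
        hsum _ _ _ (mem_W.2 (Or.inr ⟨i, hi, (0, 1, 0), by decide +kernel, by simp [emb, rc]⟩))
      have e1 : α 0 + β (6 * i + 2) = γ (7 * i + 1) :=
        hsum _ _ _ (mem_W.2 (Or.inr ⟨i, hi, (0, 2, 1), by decide +kernel, by simp [emb, rc]⟩))
      have e2 : α (6 * i + 1) + β 0 = γ (7 * i + 0) :=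
        hsum _ _ _ (mem_W.2 (Or.inr ⟨i, hi, (1, 0, 0), by decide +kernel, by simp [emb, rc]⟩))
      have e3 : α (6 * i + 1) + β (6 * i + 1) = γ (7 * i + 1) :=
        hsum _ _ _ (mem_W.2 (Or.inr ⟨i, hi, (1, 1, 1), by decide +kernel, by simp [emb, rc]⟩))
      have e4 : α (6 * i + 1) + β (6 * i + 3) = γ (7 * i + 2) :=
        hsum _ _ _ (mem_W.2 (Or.inr ⟨i, hi, (1, 3, 2), by decide +kernel, by simp [emb, rc]⟩))
      have e5 : α (6 * i + 2) + β 0 = γ (7 * i + 2) :=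
        hsum _ _ _ (mem_W.2 (Or.inr ⟨i, hi, (2, 0, 2), by decide +kernel, by simp [emb, rc]⟩))
      have e6 : α (6 * i + 2) + β (6 * i + 2) = γ (7 * i + 7) :=
        hsum _ _ _ (mem_W.2 (Or.inr ⟨i, hi, (2, 2, 7), by decide +kernel, by simp [emb, rc]⟩))
      have e7 : α (6 * i + 2) + β (6 * i + 4) = γ (7 * i + 3) :=
        hsum _ _ _ (mem_W.2 (Or.inr ⟨i, hi, (2, 4, 3), by decide +kernel, by simp [emb, rc]⟩))
      have e8 : α (6 * i + 3) + β (6 * i + 2) = γ (7 * i + 3) :=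
        hsum _ _ _ (mem_W.2 (Or.inr ⟨i, hi, (3, 2, 3), by decide +kernel, by simp [emb, rc]⟩))
      have e9 : α (6 * i + 3) + β (6 * i + 3) = γ (7 * i + 1) :=
        hsum _ _ _ (mem_W.2 (Or.inr ⟨i, hi, (3, 3, 1), by decide +kernel, by simp [emb, rc]⟩))
      have e10 : α (6 * i + 3) + β (6 * i + 5) = γ (7 * i + 4) :=
        hsum _ _ _ (mem_W.2 (Or.inr ⟨i, hi, (3, 5, 4), by decide +kernel, by simp [emb, rc]⟩))
      have e11 : α (6 * i + 4) + β (6 * i + 3) = γ (7 * i + 4) :=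
        hsum _ _ _ (mem_W.2 (Or.inr ⟨i, hi, (4, 3, 4), by decide +kernel, by simp [emb, rc]⟩))
      have e12 : α (6 * i + 4) + β (6 * i + 4) = γ (7 * i + 2) :=
        hsum _ _ _ (mem_W.2 (Or.inr ⟨i, hi, (4, 4, 2), by decide +kernel, by simp [emb, rc]⟩))
      have e13 : α (6 * i + 4) + β (6 * i + 6) = γ (7 * i + 5) :=
        hsum _ _ _ (mem_W.2 (Or.inr ⟨i, hi, (4, 6, 5), by decide +kernel, by simp [emb, rc]⟩))
      have e14 : α (6 * i + 5) + β (6 * i + 4) = γ (7 * i + 5) :=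
        hsum _ _ _ (mem_W.2 (Or.inr ⟨i, hi, (5, 4, 5), by decide +kernel, by simp [emb, rc]⟩))
      have e15 : α (6 * i + 5) + β (6 * i + 5) = γ (7 * i + 3) :=
        hsum _ _ _ (mem_W.2 (Or.inr ⟨i, hi, (5, 5, 3), by decide +kernel, by simp [emb, rc]⟩))
      have e16 : α (6 * i + 5) + β (6 * i + 6) = γ (7 * i + 6) :=
        hsum _ _ _ (mem_W.2 (Or.inr ⟨i, hi, (5, 6, 6), by decide +kernel, by simp [emb, rc]⟩))
      have e17 : α (6 * i + 6) + β (6 * i + 5) = γ (7 * i + 6) :=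
        hsum _ _ _ (mem_W.2 (Or.inr ⟨i, hi, (6, 5, 6), by decide +kernel, by simp [emb, rc]⟩))
      have e18 : α (6 * i + 6) + β (6 * i + 6) = γ (7 * i + 4) :=
        hsum _ _ _ (mem_W.2 (Or.inr ⟨i, hi, (6, 6, 4), by decide +kernel, by simp [emb, rc]⟩))
      linear_combination (norm := module) (65 : ℤ) • e0 + (49 : ℤ) • e1 + (86 : ℤ) • e2 + (-65 : ℤ) • e3 + (-21 : ℤ) • e4 + (28 : ℤ) • e5 + (-37 : ℤ) • e6 + (9 : ℤ) • e7 + (-12 : ℤ) • e8 + (16 : ℤ) • e9 + (-4 : ℤ) • e10 + (5 : ℤ) • e11 + (-7 : ℤ) • e12 + (2 : ℤ) • e13 + (-2 : ℤ) • e14 + (3 : ℤ) • e15 + (-1 : ℤ) • e16 + (1 : ℤ) • e17 + (-1 : ℤ) • e18 + (-114 : ℤ) • h0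
    have e : 7 * (i + 1) = 7 * i + 7 := by ring
    simp only [e]
    have key2 := key
    rw [add_zero] at key2
    exact_mod_cast key2
  · intro h'
    obtain ⟨u, hu, h1, h2⟩ := WL_start
    have := hγ ⟨0, rc (n - 1) u.2.1, mem_W.2 (Or.inr ⟨n - 1, by omega, u, hu, by
      simp [emb, rc, h1, h2]⟩)⟩ ⟨0, 0, mem_W.2 (Or.inl rfl)⟩ (sub_eq_zero.1 h')
    omega

theorem lower_B {G : Type*} [AddCommGroup G] [Finite G] {n : ℕ} (hn : 1 ≤ n)
    (h : Embeds (B n) G) : 151 ^ n ≤ Nat.card G := by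
  obtain ⟨α, β, γ, -, -, hγ, hsum⟩ := h
  have h0 := hsum 0 0 0 (mem_B.2 (Or.inl rfl))
  refine order_bound hn (fun i => γ (7 * (n - i)) - γ 0) ?_ (by simp) ?_
  · intro i' hi'
    obtain ⟨i, hii⟩ : ∃ i, i = n - (i' + 1) := ⟨_, rfl⟩
    have hi : i < n := by omega
    have key : (37 : ℤ) • (γ (7 * i + 0) - γ 0) = (151 : ℤ) • (γ (7 * i + 7) - γ 0) := by
      have e0 : α 0 + β (6 * i + 1) = γ (7 * i + 1) :=
        hsum _ _ _ (mem_B.2 (Or.inr ⟨i, hi, (0, 1, 1), by decide +kernel, by simp [emb, rc]⟩))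
      have e1 : α 0 + β (6 * i + 2) = γ (7 * i + 7) :=
        hsum _ _ _ (mem_B.2 (Or.inr ⟨i, hi, (0, 2, 7), by decide +kernel, by simp [emb, rc]⟩))
      have e2 : α (6 * i + 1) + β 0 = γ (7 * i + 2) :=
        hsum _ _ _ (mem_B.2 (Or.inr ⟨i, hi, (1, 0, 2), by decide +kernel, by simp [emb, rc]⟩))
      have e3 : α (6 * i + 1) + β (6 * i + 1) = γ (7 * i + 0) :=
        hsum _ _ _ (mem_B.2 (Or.inr ⟨i, hi, (1, 1, 0), by decide +kernel, by simp [emb, rc]⟩))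
      have e4 : α (6 * i + 1) + β (6 * i + 3) = γ (7 * i + 1) :=
        hsum _ _ _ (mem_B.2 (Or.inr ⟨i, hi, (1, 3, 1), by decide +kernel, by simp [emb, rc]⟩))
      have e5 : α (6 * i + 2) + β 0 = γ (7 * i + 7) :=
        hsum _ _ _ (mem_B.2 (Or.inr ⟨i, hi, (2, 0, 7), by decide +kernel, by simp [emb, rc]⟩))
      have e6 : α (6 * i + 2) + β (6 * i + 2) = γ (7 * i + 3) :=
        hsum _ _ _ (mem_B.2 (Or.inr ⟨i, hi, (2, 2, 3), by decide +kernel, by simp [emb, rc]⟩))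
      have e7 : α (6 * i + 2) + β (6 * i + 4) = γ (7 * i + 2) :=
        hsum _ _ _ (mem_B.2 (Or.inr ⟨i, hi, (2, 4, 2), by decide +kernel, by simp [emb, rc]⟩))
      have e8 : α (6 * i + 3) + β (6 * i + 2) = γ (7 * i + 1) :=
        hsum _ _ _ (mem_B.2 (Or.inr ⟨i, hi, (3, 2, 1), by decide +kernel, by simp [emb, rc]⟩))
      have e9 : α (6 * i + 3) + β (6 * i + 3) = γ (7 * i + 4) :=
        hsum _ _ _ (mem_B.2 (Or.inr ⟨i, hi, (3, 3, 4), by decide +kernel, by simp [emb, rc]⟩))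
      have e10 : α (6 * i + 3) + β (6 * i + 5) = γ (7 * i + 3) :=
        hsum _ _ _ (mem_B.2 (Or.inr ⟨i, hi, (3, 5, 3), by decide +kernel, by simp [emb, rc]⟩))
      have e11 : α (6 * i + 4) + β (6 * i + 3) = γ (7 * i + 2) :=
        hsum _ _ _ (mem_B.2 (Or.inr ⟨i, hi, (4, 3, 2), by decide +kernel, by simp [emb, rc]⟩))
      have e12 : α (6 * i + 4) + β (6 * i + 4) = γ (7 * i + 5) :=
        hsum _ _ _ (mem_B.2 (Or.inr ⟨i, hi, (4, 4, 5), by decide +kernel, by simp [emb, rc]⟩))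
      have e13 : α (6 * i + 4) + β (6 * i + 6) = γ (7 * i + 4) :=
        hsum _ _ _ (mem_B.2 (Or.inr ⟨i, hi, (4, 6, 4), by decide +kernel, by simp [emb, rc]⟩))
      have e14 : α (6 * i + 5) + β (6 * i + 4) = γ (7 * i + 3) :=
        hsum _ _ _ (mem_B.2 (Or.inr ⟨i, hi, (5, 4, 3), by decide +kernel, by simp [emb, rc]⟩))
      have e15 : α (6 * i + 5) + β (6 * i + 5) = γ (7 * i + 6) :=
        hsum _ _ _ (mem_B.2 (Or.inr ⟨i, hi, (5, 5, 6), by decide +kernel, by simp [emb, rc]⟩))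
      have e16 : α (6 * i + 5) + β (6 * i + 6) = γ (7 * i + 5) :=
        hsum _ _ _ (mem_B.2 (Or.inr ⟨i, hi, (5, 6, 5), by decide +kernel, by simp [emb, rc]⟩))
      have e17 : α (6 * i + 6) + β (6 * i + 5) = γ (7 * i + 4) :=
        hsum _ _ _ (mem_B.2 (Or.inr ⟨i, hi, (6, 5, 4), by decide +kernel, by simp [emb, rc]⟩))
      have e18 : α (6 * i + 6) + β (6 * i + 6) = γ (7 * i + 6) :=
        hsum _ _ _ (mem_B.2 (Or.inr ⟨i, hi, (6, 6, 6), by decide +kernel, by simp [emb, rc]⟩))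
      linear_combination (norm := module) (37 : ℤ) • e0 + (77 : ℤ) • e1 + (40 : ℤ) • e2 + (-37 : ℤ) • e3 + (-3 : ℤ) • e4 + (74 : ℤ) • e5 + (-43 : ℤ) • e6 + (-31 : ℤ) • e7 + (-34 : ℤ) • e8 + (12 : ℤ) • e9 + (22 : ℤ) • e10 + (-9 : ℤ) • e11 + (10 : ℤ) • e12 + (-1 : ℤ) • e13 + (21 : ℤ) • e14 + (-11 : ℤ) • e15 + (-10 : ℤ) • e16 + (-11 : ℤ) • e17 + (11 : ℤ) • e18 + (-114 : ℤ) • h0
    have e : 7 * (n - i') = 7 * i + 7 := by omega
    have e' : 7 * (n - (i' + 1)) = 7 * i := by omega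
    simp only [e, e']
    have key2 := key
    rw [add_zero] at key2
    exact_mod_cast key2
  · intro h'
    have h5 : n - (n - 1) = 1 := by omega
    rw [h5] at h'
    obtain ⟨u, hu, h1, h2⟩ := BL_end
    have := hγ ⟨0, rc 0 u.2.1, mem_B.2 (Or.inr ⟨0, by omega, u, hu, by
      simp [emb, rc, h1, h2]⟩)⟩ ⟨0, 0, mem_B.2 (Or.inl rfl)⟩ (sub_eq_zero.1 h')
    omega

/-- **Growth rate of the least order of an abelian group containing both mates of a latin bitrade.**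
There are latin bitrades `(W n, B n)` of size `19 n + 172` such that `m(W n, B n)`, the least order of
a finite abelian group in which both mates embed, is `151 ^ (n + 9)`, which is at least
`1.3 ^ |W n|`. Neither of the two mates embeds in an abelian group of smaller order. -/
theorem result : ∃ (W B : ℕ → Finset (ℕ × ℕ × ℕ)) (m : ℕ → ℕ),
    ∀ n, IsBitrade (W n) (B n) ∧ (W n).card = 19 * n + 172 ∧ m n = 151 ^ (n + 9) ∧
      IsLeast (Orders (W n) (B n)) (m n) ∧ (13 / 10 : ℝ) ^ (W n).card ≤ m n ∧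
      ∀ (G : Type) [AddCommGroup G] [Finite G], Embeds (W n) G ∨ Embeds (B n) G →
        m n ≤ Nat.card G := by
  refine ⟨fun n => W (n + 9), fun n => B (n + 9), fun n => 151 ^ (n + 9), ?_⟩
  intro n
  refine ⟨bitrade _ (by omega), ?_, rfl, ⟨?_, ?_⟩, ?_, ?_⟩
  · rw [card_W]; ring
  · exact ⟨ZMod (151 ^ (n + 9)), inferInstance, inferInstance, Nat.card_zmod _, WL_embeds _,
      BL_embeds _⟩
  · rintro m ⟨G, _, _, rfl, h, -⟩
    exact lower_W (by omega) h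
  · rw [card_W, show 19 * (n + 9) + 1 = 19 * n + 172 by ring, pow_add, pow_mul]
    push_cast
    rw [pow_add (151 : ℝ)]
    refine mul_le_mul (pow_le_pow_left₀ (by positivity) (by norm_num) n) (by norm_num)
      (by positivity) (by positivity)
  · intro G _ _ h
    rcases h with h | h
    · exact lower_W (by omega) h
    · exact lower_B (by omega) h


end Pool.Agent.Results.MP_afce15_co.GrowthRate
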